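import Pool.Agent.Helper37.RG3.Goals

set_option autoImplicit false

/-! Packet CV2 (problem MP_0c2bb8_co): from weights to multigraphs with labelled edges. -/

namespace Pool.Agent.Helper25.RG3

open Finset
open Pool.Agent.Helper37.RG3

section

variable {V : Type} [Fintype V] [DecidableEq V] {U : Finset V} {w : V → V → ℕ} {r : ℕ}

/-- The weight of an unordered pair. -/
def WW (h : RG U w r) : Sym2 {v // v ∈ U} → ℕ :=
  Sym2.lift ⟨fun u v => w u v, fun u v => h.symm u v⟩

theorem WW_mk (h : RG U w r) (u v : {v // v ∈ U}) : WW h s(u, v) = w u v := rfl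

/-- The edges. -/
abbrev EE (h : RG U w r) : Type := Σ p : Sym2 {v // v ∈ U}, Fin (WW h p)

theorem card_fib (h : RG U w r) (p : Sym2 {v // v ∈ U}) :
    (univ.filter fun e : EE h => e.1 = p).card = WW h p := by
  have h1 : (univ.filter fun e : EE h => e.1 = p) =
      (univ : Finset (Fin (WW h p))).map
        ⟨fun i => (⟨p, i⟩ : EE h), fun i j hij => by
          exact eq_of_heq (Sigma.mk.inj hij).2⟩ := by
    ext e
    simp only [mem_filter, mem_univ, true_and, mem_map, Function.Embedding.coeFn_mk]
    constructor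
    · rintro rfl
      exact ⟨e.2, rfl⟩
    · rintro ⟨i, rfl⟩
      rfl
  rw [h1, Finset.card_map, Finset.card_univ, Fintype.card_fin]

theorem not_diag (h : RG U w r) (e : EE h) : ¬ e.1.IsDiag := by
  obtain ⟨p, i⟩ := e
  induction p using Sym2.ind with
  | _ u v =>
    intro hd
    have huv : u = v := hd
    subst huv
    have h0 : WW h s(u, u) = 0 := by rw [WW_mk]; exact h.irr _
    rw [h0] at i
    exact i.elim0

theorem sum_sub (h : RG U w r) (u : V) : ∑ v : {v // v ∈ U}, w u v = ∑ v, w u v := by
  rw [← Finset.sum_subset (Finset.subset_univ U) (fun v _ hv => h.zero_right u hv)]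
  exact (Finset.sum_coe_sort U (fun v => w u v))

theorem card_inc (h : RG U w r) (v : {v // v ∈ U}) :
    (univ.filter fun e : EE h => v ∈ e.1).card = r := by
  have h1 : (univ.filter fun e : EE h => v ∈ e.1) =
      univ.biUnion fun u : {v // v ∈ U} => univ.filter fun e : EE h => e.1 = s(v, u) := by
    ext e
    simp only [mem_filter, mem_univ, true_and, mem_biUnion]
    exact Iff.rfl
  rw [h1, Finset.card_biUnion]
  · rw [Finset.sum_congr rfl fun u _ => card_fib h s(v, u)]
    simp only [WW_mk]
    rw [sum_sub h, h.deg v v.2]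
  · intro u _ u' _ huu
    rw [Function.onFun, Finset.disjoint_left]
    intro e he he'
    simp only [mem_filter, mem_univ, true_and] at he he'
    rw [he] at he'
    exact huu (Sym2.congr_right.mp he')

theorem card_cut (h : RG U w r) (X : Finset {v // v ∈ U}) :
    (univ.filter fun e : EE h => ∃ u ∈ X, ∃ w ∉ X, e.1 = s(u, w)).card =
      ct w (X.map (Function.Embedding.subtype _)) := by
  have h1 : (univ.filter fun e : EE h => ∃ u ∈ X, ∃ w ∉ X, e.1 = s(u, w)) =
      (X ×ˢ Xᶜ).biUnion fun p => univ.filter fun e : EE h => e.1 = s(p.1, p.2) := by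
    ext e
    simp only [mem_filter, mem_univ, true_and, mem_biUnion, mem_product, mem_compl, Prod.exists]
    constructor
    · rintro ⟨u, hu, v, hv, he⟩
      exact ⟨u, v, ⟨hu, hv⟩, he⟩
    · rintro ⟨u, v, ⟨hu, hv⟩, he⟩
      exact ⟨u, hu, v, hv, he⟩
  rw [h1, Finset.card_biUnion]
  · rw [Finset.sum_congr rfl fun p _ => card_fib h s(p.1, p.2)]
    simp only [WW_mk]
    rw [Finset.sum_product, h.ct_eq]
    have h2 : U \ X.map (Function.Embedding.subtype _) =
        Xᶜ.map (Function.Embedding.subtype _) := by
      ext v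
      simp only [mem_sdiff, mem_map, Function.Embedding.coe_subtype, Subtype.exists,
        exists_and_right, exists_eq_right, mem_compl]
      constructor
      · rintro ⟨hv, hn⟩
        exact ⟨hv, fun hx => hn ⟨hv, hx⟩⟩
      · rintro ⟨hv, hx⟩
        exact ⟨hv, fun ⟨_, hn⟩ => hx hn⟩
    rw [h2]
    unfold bt
    rw [Finset.sum_map]
    refine Finset.sum_congr rfl fun u _ => ?_
    rw [Finset.sum_map]
    rfl
  · intro p hp p' hp' hpp
    rw [Function.onFun, Finset.disjoint_left]
    intro e he he'
    simp only [mem_filter, mem_univ, true_and] at he he'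
    rw [he] at he'
    simp only [coe_product, coe_compl, Set.mem_prod, mem_coe, Set.mem_compl_iff] at hp hp'
    rcases Sym2.eq_iff.mp he' with ⟨h1, h2⟩ | ⟨h1, h2⟩
    · exact hpp (Prod.ext h1 h2)
    · rw [h1] at hp
      exact hp'.2 hp.1

theorem col (h : RG U w r) (c : EE h → Fin r)
    (hc : ∀ e₁ e₂ : EE h, e₁ ≠ e₂ → (∃ v, v ∈ e₁.1 ∧ v ∈ e₂.1) → c e₁ ≠ c e₂) : Col w r := by
  have huniq : ∀ (v : {v // v ∈ U}) (e e' : EE h), v ∈ e.1 → v ∈ e'.1 → c e = c e' → e = e' := by
    intro v e e' he he' hce
    by_contra hne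
    exact hc e e' hne ⟨v, he, he'⟩ hce
  have hex : ∀ (i : Fin r) (v : {v // v ∈ U}), ∃ e : EE h, v ∈ e.1 ∧ c e = i := by
    intro i v
    have h1 : ((univ.filter fun e : EE h => v ∈ e.1).image c) = univ := by
      apply Finset.eq_univ_of_card
      rw [Finset.card_image_of_injOn, card_inc, Fintype.card_fin]
      intro e he e' he' hce
      simp only [coe_filter, mem_univ, true_and, Set.mem_ofPred_eq] at he he'
      exact huniq v e e' he he' hce
    have h2 : i ∈ ((univ.filter fun e : EE h => v ∈ e.1).image c) := by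
      rw [h1]; exact mem_univ i
    obtain ⟨e, he, hi⟩ := Finset.mem_image.mp h2
    exact ⟨e, (Finset.mem_filter.mp he).2, hi⟩
  choose ed hed hec using hex
  have hot' : ∀ (i : Fin r) (v : {v // v ∈ U}), ∃ u, (ed i v).1 = s(v, u) := fun i v => hed i v
  choose ot hot using hot'
  have hinv : ∀ i v, ot i (ot i v) = v := by
    intro i v
    have h1 : ed i (ot i v) = ed i v := by
      apply huniq (ot i v)
      · exact hed i _
      · rw [hot i v]; exact Sym2.mem_mk_right _ _
      · rw [hec, hec]
    have h2 := hot i (ot i v)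
    rw [h1, hot i v, Sym2.eq_swap] at h2
    exact (Sym2.congr_right.mp h2).symm
  have hcnt : ∀ u v : {v // v ∈ U}, (univ.filter fun i : Fin r => ot i u = v).card = w u v := by
    intro u v
    rw [← WW_mk h u v, ← card_fib h s(u, v)]
    have h1 : (univ.filter fun i : Fin r => ot i u = v) =
        (univ.filter fun e : EE h => e.1 = s(u, v)).image c := by
      ext i
      simp only [mem_filter, mem_univ, true_and, mem_image]
      constructor
      · rintro rfl
        exact ⟨ed i u, hot i u, hec i u⟩
      · rintro ⟨e, he, rfl⟩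
        have h2 : ed (c e) u = e := by
          apply huniq u
          · exact hed _ _
          · rw [he]; exact Sym2.mem_mk_left _ _
          · rw [hec]
        have h3 := hot (c e) u
        rw [h2, he] at h3
        exact (Sym2.congr_right.mp h3).symm
    rw [h1, Finset.card_image_of_injOn]
    intro e he e' he' hce
    simp only [coe_filter, mem_univ, true_and, Set.mem_ofPred_eq] at he he'
    apply huniq u e e' _ _ hce
    · rw [he]; exact Sym2.mem_mk_left _ _
    · rw [he']; exact Sym2.mem_mk_left _ _
  refine ⟨fun i v => if hv : v ∈ U then (ot i ⟨v, hv⟩ : V) else v, fun i u => ?_, fun u v huv => ?_⟩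
  · by_cases hu : u ∈ U
    · have h2 : ((ot i ⟨u, hu⟩ : {v // v ∈ U}) : V) ∈ U := (ot i ⟨u, hu⟩).2
      simp only [dif_pos hu, dif_pos h2, Subtype.coe_eta, hinv]
    · simp only [dif_neg hu]
  · by_cases hu : u ∈ U
    · simp only [dif_pos hu]
      by_cases hv : v ∈ U
      · rw [← hcnt ⟨u, hu⟩ ⟨v, hv⟩]
        congr 1
        ext i
        simp only [mem_filter, mem_univ, true_and]
        exact ⟨fun hh => Subtype.ext hh, fun hh => congrArg Subtype.val hh⟩
      · rw [h.zero_right u hv, Finset.card_eq_zero, Finset.filter_eq_empty_iff]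
        intro i _ hi
        exact hv (hi ▸ (ot i ⟨u, hu⟩).2)
    · simp only [dif_neg hu]
      rw [h.zero_left hu v, Finset.card_eq_zero, Finset.filter_eq_empty_iff]
      intro i _ hi
      exact huv hi

end

theorem cv2 : CV2 := by
  intro V _ _ U w r h
  refine ⟨EE h, inferInstance, Sigma.fst, not_diag h, fun v => ?_, fun X => ?_, fun u v => ?_,
    fun ⟨c, hc⟩ => col h c hc⟩
  · refine Eq.trans ?_ (card_inc h v)
    rw [← Set.ncard_coe_finset]
    congr 1
    ext e
    simp
  · rw [← card_cut h X, ← Set.ncard_coe_finset]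
    congr 1
    ext e
    simp
  · rw [← WW_mk h u v, ← card_fib h s(u, v), ← Set.ncard_coe_finset]
    congr 1
    ext e
    simp

end Pool.Agent.Helper25.RG3
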